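import Pool.Agent.Helper15.T8.Stmts

set_option autoImplicit false

/-!
MP_2f9829_co, part T8, module ASM: transfer of a monotone bad property from regular graphs to all graphs
of maximum degree at most `D`.
-/

open Finset Filter Topology

namespace Pool.Agent.Helper78.T8

open Pool.Agent.Helper15.T8

theorem df_pos (k : ℕ) : 0 < df k := by
  unfold df
  exact Finset.prod_pos fun i _ => by omega

theorem GW_sub {n D : ℕ} {W : Finset (Fin n)} {E : Finset (Sym2 (Fin n))} (h : E ∈ GW n D W) :
    E ∈ GW n D ∅ := by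
  unfold GW at h ⊢
  rw [Finset.mem_filter] at h ⊢
  refine ⟨h.1, h.2.1, h.2.2.1, fun v hv => ?_⟩
  simp at hv

theorem st_ASM (bas : ST_BAS) (dct : ST_DCT) (upc : ST_UPC) (loc : ST_LOC) (typ : ST_TYP)
    (tail : ST_TAIL) : ST_ASM := by
  classical
  intro D η hD hη
  obtain ⟨C, n1, hT1⟩ := tail D (η / 4) 0 hD (by positivity)
  obtain ⟨K, n2, hTy⟩ := typ D C hD
  obtain ⟨A0, hA0⟩ := exists_nat_ge (4 * K / η)
  set A : ℕ := A0 + 1 with hA
  have hKA : K ≤ (η / 4) * (A : ℝ) := by
    have h1 : (A0 : ℝ) ≤ (A : ℝ) := by exact_mod_cast Nat.le_succ A0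
    have h2 : 4 * K / η ≤ (A : ℝ) := hA0.trans h1
    rw [div_le_iff₀ hη] at h2
    linarith
  have hApos : (0 : ℝ) < (A : ℝ) := by exact_mod_cast Nat.succ_pos A0
  obtain ⟨ε0, hε0, k0, hL⟩ := loc D A
  obtain ⟨C', n3, hT2⟩ := tail D (η / 4) (2 * k0) hD (by positivity)
  refine ⟨ε0 * (η / 4), by positivity, max n1 (max n2 n3), ?_⟩
  intro n W B _ hn hev hW hmono hRG hRB
  have hn1 : n1 ≤ n := (le_max_left _ _).trans hn
  have hn2 : n2 ≤ n := (le_max_left _ _).trans ((le_max_right _ _).trans hn)
  have hn3 : n3 ≤ n := (le_max_right _ _).trans ((le_max_right _ _).trans hn)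
  set J : Finset ℕ := (GW n D W).image (fun E => E.card) with hJ
  have hfib : ∀ S : Finset (Finset (Sym2 (Fin n))), S ⊆ GW n D W →
      (S.card : ℝ) = ∑ j ∈ J, ((S.filter (fun E => E.card = j)).card : ℝ) := by
    intro S hS
    have h1 := Finset.card_eq_sum_card_fiberwise (f := fun E : Finset (Sym2 (Fin n)) => E.card)
      (s := S) (t := J) (fun E hE => Finset.mem_image_of_mem _ (hS hE))
    exact_mod_cast h1
  set T1 : Finset (Finset (Sym2 (Fin n))) := (GW n D W).filter (fun E => FJ n D W E.card ≤ 0 ∨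
    C * Real.sqrt n < (FJ n D W E.card : ℝ)) with hT1def
  set T2 : Finset (Finset (Sym2 (Fin n))) := (GW n D W).filter (fun E =>
    FJ n D W E.card ≤ 2 * k0 ∨ C' * Real.sqrt n < (FJ n D W E.card : ℝ)) with hT2def
  have hT1' : (T1.card : ℝ) ≤ η / 4 * ((GW n D W).card : ℝ) := hT1 n W hn1 hW
  have hT2' : (T2.card : ℝ) ≤ η / 4 * ((GW n D W).card : ℝ) := hT2 n W hn3 hW
  -- the estimate for one value of `j`
  have hj : ∀ j ∈ J, ((((GW n D W).filter B).filter (fun E => E.card = j)).card : ℝ) ≤
      ((T1.filter (fun E => E.card = j)).card : ℝ) + ((T2.filter (fun E => E.card = j)).card : ℝ) +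
      η / 4 * ((GJ n D W j).card : ℝ) + η / 4 * ((GJ n D W j).card : ℝ) := by
    intro j hjJ
    have hGJ0 : (0 : ℝ) ≤ η / 4 * ((GJ n D W j).card : ℝ) := by positivity
    have hsubGJ : (((GW n D W).filter B).filter (fun E => E.card = j)) ⊆ GJ n D W j := by
      intro E hE
      rw [Finset.mem_filter, Finset.mem_filter] at hE
      exact Finset.mem_filter.mpr ⟨hE.1.1, hE.2⟩
    by_cases h1 : FJ n D W j ≤ 0 ∨ C * Real.sqrt n < (FJ n D W j : ℝ)
    · have h2 : (((GW n D W).filter B).filter (fun E => E.card = j)) ⊆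
          T1.filter (fun E => E.card = j) := by
        intro E hE
        rw [Finset.mem_filter, Finset.mem_filter] at hE
        refine Finset.mem_filter.mpr ⟨Finset.mem_filter.mpr ⟨hE.1.1, ?_⟩, hE.2⟩
        rw [hE.2]
        exact h1
      have h3 : ((((GW n D W).filter B).filter (fun E => E.card = j)).card : ℝ) ≤
          ((T1.filter (fun E => E.card = j)).card : ℝ) := by
        exact_mod_cast Finset.card_le_card h2
      have h4 : (0 : ℝ) ≤ ((T2.filter (fun E => E.card = j)).card : ℝ) := Nat.cast_nonneg _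
      linarith
    by_cases h2 : FJ n D W j ≤ 2 * k0 ∨ C' * Real.sqrt n < (FJ n D W j : ℝ)
    · have h2' : (((GW n D W).filter B).filter (fun E => E.card = j)) ⊆
          T2.filter (fun E => E.card = j) := by
        intro E hE
        rw [Finset.mem_filter, Finset.mem_filter] at hE
        refine Finset.mem_filter.mpr ⟨Finset.mem_filter.mpr ⟨hE.1.1, ?_⟩, hE.2⟩
        rw [hE.2]
        exact h2
      have h3 : ((((GW n D W).filter B).filter (fun E => E.card = j)).card : ℝ) ≤
          ((T2.filter (fun E => E.card = j)).card : ℝ) := by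
        exact_mod_cast Finset.card_le_card h2'
      have h4 : (0 : ℝ) ≤ ((T1.filter (fun E => E.card = j)).card : ℝ) := Nat.cast_nonneg _
      linarith
    -- the main case
    rw [not_or, not_le, not_lt] at h1 h2
    obtain ⟨E0, hE0, hE0j⟩ := Finset.mem_image.mp hjJ
    have hE0' : E0 ∈ GJ n D W j := Finset.mem_filter.mpr ⟨hE0, hE0j⟩
    have hb0 := bas n D W j E0 hE0'
    have hWn : W.card ≤ n := by
      have := Finset.card_le_univ W
      simpa using this
    obtain ⟨k, hk⟩ : ∃ k, FJ n D W j + D * W.card = 2 * k := by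
      obtain ⟨m, hm⟩ := hev
      have h3 : (n - W.card) * D + D * W.card = n * D := by
        rw [mul_comm D W.card, ← Nat.add_mul, Nat.sub_add_cancel hWn]
      refine ⟨m * D - j, ?_⟩
      have h4 : n * D = 2 * (m * D) := by rw [hm]; ring
      have h5 := hb0.1
      unfold FJ
      omega
    have hkk : k0 ≤ k := by omega
    have hdfk : (0 : ℝ) < (df k : ℝ) := by exact_mod_cast df_pos k
    have hE : ∀ E ∈ GJ n D W j, E ∈ GW n D ∅ ∧ ∑ v, (D - dg E v) = 2 * k := by
      intro E hE
      have h3 := bas n D W j E hE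
      refine ⟨GW_sub (Finset.mem_filter.mp hE).1, ?_⟩
      rw [h3.2.2.1, hk]
    have hsplit : (((GW n D W).filter B).filter (fun E => E.card = j)) ⊆
        (((GJ n D W j).filter B).filter (fun E => (TT n D E).card ≤ A)) ∪
        ((GJ n D W j).filter (fun E => ¬ (TT n D E).card ≤ A)) := by
      intro E hEm
      have h3 := hsubGJ hEm
      rw [Finset.mem_filter, Finset.mem_filter] at hEm
      by_cases h4 : (TT n D E).card ≤ A
      · exact Finset.mem_union_left _ (Finset.mem_filter.mpr
          ⟨Finset.mem_filter.mpr ⟨h3, hEm.1.2⟩, h4⟩)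
      · exact Finset.mem_union_right _ (Finset.mem_filter.mpr ⟨h3, h4⟩)
    have hc1 : ((((GW n D W).filter B).filter (fun E => E.card = j)).card : ℝ) ≤
        ((((GJ n D W j).filter B).filter (fun E => (TT n D E).card ≤ A)).card : ℝ) +
        (((GJ n D W j).filter (fun E => ¬ (TT n D E).card ≤ A)).card : ℝ) := by
      have h3 := (Finset.card_le_card hsplit).trans (Finset.card_union_le _ _)
      exact_mod_cast h3
    -- Markov
    have hc2 : (((GJ n D W j).filter (fun E => ¬ (TT n D E).card ≤ A)).card : ℝ) ≤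
        η / 4 * ((GJ n D W j).card : ℝ) := by
      have h3 := hTy n W j hn2 hW hb0.1 h1.2
      have h4 : (((GJ n D W j).filter (fun E => ¬ (TT n D E).card ≤ A)).card : ℝ) * (A : ℝ) ≤
          ∑ E ∈ GJ n D W j, (((TT n D E).card : ℕ) : ℝ) := by
        calc (((GJ n D W j).filter (fun E => ¬ (TT n D E).card ≤ A)).card : ℝ) * (A : ℝ) =
            ∑ _E ∈ (GJ n D W j).filter (fun E => ¬ (TT n D E).card ≤ A), (A : ℝ) := by
              rw [Finset.sum_const, nsmul_eq_mul]
          _ ≤ ∑ E ∈ (GJ n D W j).filter (fun E => ¬ (TT n D E).card ≤ A),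
              (((TT n D E).card : ℕ) : ℝ) := by
              refine Finset.sum_le_sum fun E hEm => ?_
              have h5 := (Finset.mem_filter.mp hEm).2
              exact_mod_cast (not_le.mp h5).le
          _ ≤ ∑ E ∈ GJ n D W j, (((TT n D E).card : ℕ) : ℝ) :=
              Finset.sum_le_sum_of_subset_of_nonneg (Finset.filter_subset _ _)
                (fun _ _ _ => Nat.cast_nonneg _)
      have h5 : K * ((GJ n D W j).card : ℝ) ≤ (η / 4) * (A : ℝ) * ((GJ n D W j).card : ℝ) :=
        mul_le_mul_of_nonneg_right hKA (Nat.cast_nonneg _)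
      have h6 : (((GJ n D W j).filter (fun E => ¬ (TT n D E).card ≤ A)).card : ℝ) * (A : ℝ) ≤
          (η / 4 * ((GJ n D W j).card : ℝ)) * (A : ℝ) := by
        calc _ ≤ _ := h4.trans (h3.trans h5)
          _ = _ := by ring
      exact le_of_mul_le_mul_right h6 hApos
    -- double counting
    have hc3 : ((((GJ n D W j).filter B).filter (fun E => (TT n D E).card ≤ A)).card : ℝ) ≤
        η / 4 * ((GJ n D W j).card : ℝ) := by
      obtain ⟨hd1, hd2⟩ := dct n D W B hW hmono j
      set m : ℕ := (n * D / 2 - D * W.card).choose j with hm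
      have h3 : ((((GJ n D W j).filter B).filter (fun E => (TT n D E).card ≤ A)).card : ℝ) *
          (ε0 * (df k : ℝ)) ≤ ((∑ E ∈ (GJ n D W j).filter B, cp n D E : ℕ) : ℝ) := by
        push_cast
        calc ((((GJ n D W j).filter B).filter (fun E => (TT n D E).card ≤ A)).card : ℝ) *
            (ε0 * (df k : ℝ)) =
            ∑ _E ∈ ((GJ n D W j).filter B).filter (fun E => (TT n D E).card ≤ A),
              (ε0 * (df k : ℝ)) := by rw [Finset.sum_const, nsmul_eq_mul]
          _ ≤ ∑ E ∈ ((GJ n D W j).filter B).filter (fun E => (TT n D E).card ≤ A),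
              (cp n D E : ℝ) := by
              refine Finset.sum_le_sum fun E hEm => ?_
              have h5 := Finset.mem_filter.mp hEm
              have h6 := hE E (Finset.mem_filter.mp h5.1).1
              exact hL n k E h6.1 h6.2 hkk h5.2
          _ ≤ ∑ E ∈ (GJ n D W j).filter B, (cp n D E : ℝ) :=
              Finset.sum_le_sum_of_subset_of_nonneg (Finset.filter_subset _ _)
                (fun _ _ _ => Nat.cast_nonneg _)
      have h4 : ((∑ E ∈ (GJ n D W j).filter B, cp n D E : ℕ) : ℝ) ≤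
          (((RG n D).filter B).card : ℝ) * (m : ℝ) := by exact_mod_cast hd2
      have h5 : ((RG n D).card : ℝ) * (m : ℝ) = ((∑ E ∈ GJ n D W j, cp n D E : ℕ) : ℝ) := by
        rw [hd1]
        push_cast
        ring
      have h6 : ((∑ E ∈ GJ n D W j, cp n D E : ℕ) : ℝ) ≤ ((GJ n D W j).card : ℝ) * (df k : ℝ) := by
        have h7 : ∑ E ∈ GJ n D W j, cp n D E ≤ ∑ _E ∈ GJ n D W j, df k :=
          Finset.sum_le_sum fun E hEm => upc n D k E (hE E hEm).1 (hE E hEm).2
        rw [Finset.sum_const, smul_eq_mul] at h7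
        exact_mod_cast h7
      have h7 : (((RG n D).filter B).card : ℝ) * (m : ℝ) ≤
          (ε0 * (η / 4)) * (((GJ n D W j).card : ℝ) * (df k : ℝ)) := by
        calc (((RG n D).filter B).card : ℝ) * (m : ℝ) ≤
            (ε0 * (η / 4) * ((RG n D).card : ℝ)) * (m : ℝ) :=
              mul_le_mul_of_nonneg_right hRB (Nat.cast_nonneg _)
          _ = (ε0 * (η / 4)) * (((RG n D).card : ℝ) * (m : ℝ)) := by ring
          _ ≤ _ := by
              rw [h5]
              exact mul_le_mul_of_nonneg_left h6 (by positivity)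
      have h8 : ((((GJ n D W j).filter B).filter (fun E => (TT n D E).card ≤ A)).card : ℝ) *
          (ε0 * (df k : ℝ)) ≤ (η / 4 * ((GJ n D W j).card : ℝ)) * (ε0 * (df k : ℝ)) := by
        calc _ ≤ _ := h3.trans (h4.trans h7)
          _ = _ := by ring
      exact le_of_mul_le_mul_right h8 (by positivity)
    have h9 : (0 : ℝ) ≤ ((T1.filter (fun E => E.card = j)).card : ℝ) := Nat.cast_nonneg _
    have h10 : (0 : ℝ) ≤ ((T2.filter (fun E => E.card = j)).card : ℝ) := Nat.cast_nonneg _
    linarith
  have hsum := Finset.sum_le_sum hj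
  rw [← hfib _ (Finset.filter_subset _ _)] at hsum
  simp only [Finset.sum_add_distrib] at hsum
  rw [← hfib T1 (Finset.filter_subset _ _), ← hfib T2 (Finset.filter_subset _ _)] at hsum
  have hG : ∑ j ∈ J, (η / 4 * ((GJ n D W j).card : ℝ)) = η / 4 * ((GW n D W).card : ℝ) := by
    rw [← Finset.mul_sum, hfib (GW n D W) (Finset.Subset.refl _)]
    rfl
  rw [hG] at hsum
  linarith

end Pool.Agent.Helper78.T8
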